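import Pool.Agent.Q240.EX.Stm5

set_option autoImplicit false
set_option maxHeartbeats 2000000

/-!
# Project EX: existence of minimisers for every local norm (job EX-UnivE)
-/

open Filter Topology MeasureTheory Complex
open Pool.Agent.Q240.CD Pool.Agent.Q240.EX
open Pool.Agent.Y23 (TT QQ N2 LL SS Fa Dom)

namespace Pool.Agent.Q223.EX

/-- the dominating function -/
noncomputable def Ph (γ : ℕ → ℝ) (x : ℝ) : ℝ := (1 + x ^ 2 / γ 0 ^ 2) * Gm γ x ^ 2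

lemma ph_nonneg (γ : ℕ → ℝ) (x : ℝ) : 0 ≤ Ph γ x := by
  unfold Ph
  positivity

lemma ph_zero (γ : ℕ → ℝ) : Ph γ 0 = 1 := by
  unfold Ph Gm
  simp

lemma ph_int {γ : ℕ → ℝ} (h0 : 0 < γ 0) {w : Measure ℝ} (hw : Ad γ w) : Integrable (Ph γ) w := by
  have h1 := hw.int
  have h2 : Ph γ = fun x => ((1 + x ^ 2 / γ 0 ^ 2) / (1 + x ^ 2)) * ((1 + x ^ 2) * Gm γ x ^ 2) := by
    funext x
    unfold Ph
    have : (1 + x ^ 2) ≠ 0 := by positivity
    field_simp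
  rw [h2]
  refine h1.bdd_mul (c := 1 + 1 / γ 0 ^ 2) ?_ ?_
  · refine Continuous.aestronglyMeasurable ?_
    refine Continuous.div (by fun_prop) (by fun_prop) fun x => ?_
    positivity
  · refine Eventually.of_forall fun x => ?_
    have hp : 0 < 1 + x ^ 2 := by positivity
    rw [Real.norm_eq_abs, abs_of_nonneg (by positivity), div_le_iff₀ hp]
    have h3 : x ^ 2 / γ 0 ^ 2 = 1 / γ 0 ^ 2 * x ^ 2 := by ring
    rw [h3]
    have h4 : 0 ≤ 1 / γ 0 ^ 2 := by positivity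
    nlinarith [sq_nonneg x]

lemma small_int {γ : ℕ → ℝ} {w : Measure ℝ} (hPh : Integrable (Ph γ) w) {K : ℝ} (hK : 0 ≤ K) {ε : ℝ} (hε : 0 < ε) :
    ∃ t : ℝ, 0 < t ∧ ∫ x, min t (K * Ph γ x) ∂w ≤ ε := by
  have h1 : Tendsto (fun n : ℕ => ∫ x, min (1 / ((n : ℝ) + 1)) (K * Ph γ x) ∂w) atTop (𝓝 (∫ _, (0 : ℝ) ∂w)) := by
    refine tendsto_integral_of_dominated_convergence (fun x => K * Ph γ x) ?_ (hPh.const_mul K) ?_ ?_
    · intro n
      exact aestronglyMeasurable_const.inf (hPh.const_mul K).aestronglyMeasurable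
    · intro n
      refine Eventually.of_forall fun x => ?_
      rw [Real.norm_eq_abs, abs_of_nonneg (le_min (by positivity) (mul_nonneg hK (ph_nonneg γ x)))]
      exact min_le_right _ _
    · refine Eventually.of_forall fun x => ?_
      have : Tendsto (fun n : ℕ => min (1 / ((n : ℝ) + 1)) (K * Ph γ x)) atTop (𝓝 (min 0 (K * Ph γ x))) :=
        tendsto_one_div_add_atTop_nhds_zero_nat.min tendsto_const_nhds
      rwa [min_eq_left (mul_nonneg hK (ph_nonneg γ x))] at this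
  rw [integral_zero] at h1
  obtain ⟨n, hn⟩ := (h1.eventually (gt_mem_nhds hε)).exists
  exact ⟨1 / ((n : ℝ) + 1), by positivity, hn.le⟩

lemma cont_line {a : ℝ} {f : ℝ → ℂ} (hf : Fa a f) : Continuous (fun x : ℝ => ‖TT f (Complex.I * x)‖ ^ 2) := by
  have h := (Y23.TT_line_cont hf).norm.pow 2
  refine h.congr fun x => ?_
  show ‖TT f (↑x * Complex.I)‖ ^ 2 = ‖TT f (Complex.I * ↑x)‖ ^ 2
  rw [mul_comm (x : ℂ) Complex.I]

section core

variable {a : ℝ} {ν : ℕ∞} {γ : ℕ → ℝ} {w : Measure ℝ} {δ : ℝ}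

lemma qq_nonneg (hδ : 0 < δ)
    (hK : ∀ f : ℝ → ℂ, Y23.G.F.Hn a ν f → ∀ x : ℝ, δ * ‖TT f (Complex.I * x)‖ ^ 2 ≤ Ph γ x * QQ f)
    {f : ℝ → ℂ} (hf : Y23.G.F.Hn a ν f) : 0 ≤ QQ f := by
  have h := hK f hf 0
  rw [ph_zero, one_mul] at h
  exact le_trans (by positivity) h

lemma pt_le (hδ : 0 < δ)
    (hK : ∀ f : ℝ → ℂ, Y23.G.F.Hn a ν f → ∀ x : ℝ, δ * ‖TT f (Complex.I * x)‖ ^ 2 ≤ Ph γ x * QQ f)
    {f : ℝ → ℂ} (hf : Y23.G.F.Hn a ν f) (x : ℝ) : ‖TT f (Complex.I * x)‖ ^ 2 ≤ (QQ f / δ) * Ph γ x := by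
  have h := hK f hf x
  rw [div_mul_eq_mul_div, le_div_iff₀ hδ]
  linarith

lemma nw_int (hPh : Integrable (Ph γ) w) (hδ : 0 < δ)
    (hK : ∀ f : ℝ → ℂ, Y23.G.F.Hn a ν f → ∀ x : ℝ, δ * ‖TT f (Complex.I * x)‖ ^ 2 ≤ Ph γ x * QQ f)
    {f : ℝ → ℂ} (hf : Y23.G.F.Hn a ν f) : Integrable (fun x : ℝ => ‖TT f (Complex.I * x)‖ ^ 2) w := by
  refine (hPh.const_mul (QQ f / δ)).mono' (cont_line hf.1).aestronglyMeasurable (Eventually.of_forall fun x => ?_)
  rw [Real.norm_eq_abs, abs_of_nonneg (sq_nonneg _)]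
  exact pt_le hδ hK hf x

lemma nw_nonneg (w : Measure ℝ) (f : ℝ → ℂ) : 0 ≤ Nw w f := integral_nonneg fun _ => sq_nonneg _

lemma nw_le (hPh : Integrable (Ph γ) w) (hδ : 0 < δ)
    (hK : ∀ f : ℝ → ℂ, Y23.G.F.Hn a ν f → ∀ x : ℝ, δ * ‖TT f (Complex.I * x)‖ ^ 2 ≤ Ph γ x * QQ f)
    {f : ℝ → ℂ} (hf : Y23.G.F.Hn a ν f) : Nw w f ≤ (QQ f / δ) * ∫ x, Ph γ x ∂w := by
  unfold Nw
  rw [← integral_const_mul]
  exact integral_mono (nw_int hPh hδ hK hf) (hPh.const_mul _) fun x => pt_le hδ hK hf x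

lemma nw_smul (w : Measure ℝ) (f : ℝ → ℂ) (c : ℂ) : Nw w (fun x => c * f x) = ‖c‖ ^ 2 * Nw w f := by
  unfold Nw
  rw [← integral_const_mul]
  congr 1
  funext x
  rw [Y23.TT_smul, norm_mul, mul_pow]

lemma par_id (z u : ℂ) : ‖z + u‖ ^ 2 + ‖z - u‖ ^ 2 = 2 * ‖z‖ ^ 2 + 2 * ‖u‖ ^ 2 := by
  have h := parallelogram_law_with_norm ℝ z u
  nlinarith

lemma nw_par (hPh : Integrable (Ph γ) w) (hδ : 0 < δ)
    (hK : ∀ f : ℝ → ℂ, Y23.G.F.Hn a ν f → ∀ x : ℝ, δ * ‖TT f (Complex.I * x)‖ ^ 2 ≤ Ph γ x * QQ f)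
    {f g : ℝ → ℂ} (hf : Y23.G.F.Hn a ν f) (hg : Y23.G.F.Hn a ν g) :
    Nw w (fun x => f x + g x) + Nw w (fun x => f x - g x) = 2 * Nw w f + 2 * Nw w g := by
  unfold Nw
  rw [← integral_const_mul, ← integral_const_mul,
    ← integral_add (nw_int hPh hδ hK (hf.add hg)) (nw_int hPh hδ hK (hf.sub hg)),
    ← integral_add ((nw_int hPh hδ hK hf).const_mul 2) ((nw_int hPh hδ hK hg).const_mul 2)]
  congr 1
  funext x
  rw [Y23.TT_add hf.1 hg.1, Y23.TT_sub hf.1 hg.1, par_id]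

lemma qq_par (ha : 0 < a) {f g : ℝ → ℂ} (hf : Y23.G.F.Hn a ν f) (hg : Y23.G.F.Hn a ν g) :
    QQ (fun x => f x + g x) + QQ (fun x => f x - g x) = 2 * QQ f + 2 * QQ g := by
  have hf' : Y23.Hd a f := hf.hd
  have hg' : Y23.Hd a g := hg.hd
  have h1 := Y23.bq_line ha 0 hf' hg' 1
  have h2 := Y23.bq_line ha 0 hf' hg' (-1)
  have e : (fun x => f x + -1 * g x) = fun x => f x - g x := by funext x; ring
  rw [e] at h2
  simp only [Y23.bq, one_mul, map_one, norm_one, one_pow, map_neg, norm_neg, neg_mul, Complex.neg_re, zero_mul, sub_zero] at h1 h2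
  linarith

/-- Weil's form minus `μ` times the norm -/
noncomputable def Bm (w : Measure ℝ) (μ : ℝ) (f : ℝ → ℂ) : ℝ := QQ f - μ * Nw w f

lemma bm_sub_le (ha : 0 < a) (hPh : Integrable (Ph γ) w) (hδ : 0 < δ)
    (hK : ∀ f : ℝ → ℂ, Y23.G.F.Hn a ν f → ∀ x : ℝ, δ * ‖TT f (Complex.I * x)‖ ^ 2 ≤ Ph γ x * QQ f)
    {μ : ℝ} (hB : ∀ f : ℝ → ℂ, Y23.G.F.Hn a ν f → 0 ≤ Bm w μ f)
    {f g : ℝ → ℂ} (hf : Y23.G.F.Hn a ν f) (hg : Y23.G.F.Hn a ν g) :
    Bm w μ (fun x => f x - g x) ≤ 2 * Bm w μ f + 2 * Bm w μ g := by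
  have h1 := nw_par hPh hδ hK hf hg
  have h2 := qq_par ha hf hg
  have h3 := hB _ (hf.add hg)
  unfold Bm at *
  have h4 : μ * Nw w (fun x => f x + g x) + μ * Nw w (fun x => f x - g x) = 2 * (μ * Nw w f) + 2 * (μ * Nw w g) := by
    rw [← mul_add, h1]; ring
  linarith

/-- the mean square norm is bounded by the form -/
lemma low (ha : 0 < a) (hδ : 0 < δ)
    (hK : ∀ f : ℝ → ℂ, Y23.G.F.Hn a ν f → ∀ x : ℝ, δ * ‖TT f (Complex.I * x)‖ ^ 2 ≤ Ph γ x * QQ f) :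
    ∃ C : ℝ, 0 < C ∧ ∀ f : ℝ → ℂ, Y23.G.F.Hn a ν f → N2 f ≤ C * QQ f := by
  obtain ⟨e, N, hKn, he, -⟩ := Y23.Z.structure_n (ν := ν) ha
  have heH : Y23.G.F.Hn a ν e := hKn.1
  have h1 := (Y23.Z.Kn_iff ha heH).1 hKn
  have hq := qq_nonneg hδ hK heH
  have hn := Y23.N2_nonneg e
  have hn' : 0 < N2 e := lt_of_le_of_ne hn (Ne.symm he)
  have hqe : 0 < QQ e := by
    refine lt_of_le_of_ne hq fun h0 => he ?_
    have h2 : ∀ x : ℝ, ‖TT e (x * Complex.I)‖ ^ 2 = 0 := by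
      intro x
      have h3 := pt_le hδ hK heH x
      rw [← h0, zero_div, zero_mul, mul_comm] at h3
      exact le_antisymm h3 (sq_nonneg _)
    have h4 := Y23.plancherel heH.1
    simp only [h2, integral_zero] at h4
    have hpi := Real.pi_pos
    rcases mul_eq_zero.1 h4.symm with h5 | h5
    · linarith
    · exact h5
  refine ⟨N2 e / QQ e, by positivity, fun f hf => ?_⟩
  rw [div_mul_eq_mul_div, le_div_iff₀ hqe]
  have := h1 f hf
  linarith

/-- small mean square norm implies small norm -/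
lemma nw_small (ha : 0 < a) (hPh : Integrable (Ph γ) w) (hδ : 0 < δ)
    (hK : ∀ f : ℝ → ℂ, Y23.G.F.Hn a ν f → ∀ x : ℝ, δ * ‖TT f (Complex.I * x)‖ ^ 2 ≤ Ph γ x * QQ f)
    {M : ℝ} (hM : 0 ≤ M) {ε : ℝ} (hε : 0 < ε) :
    ∃ t : ℝ, 0 < t ∧ ∀ f : ℝ → ℂ, Y23.G.F.Hn a ν f → QQ f ≤ M → N2 f ≤ t → Nw w f ≤ ε := by
  obtain ⟨t, ht, h⟩ := small_int (w := w) hPh (K := M / δ) (by positivity) hε
  refine ⟨t / (2 * a), by positivity, fun f hf hQ hN => le_trans ?_ h⟩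
  have hle : ∀ x : ℝ, ‖TT f (Complex.I * x)‖ ^ 2 ≤ min t (M / δ * Ph γ x) := by
    intro x
    refine le_min ?_ ?_
    · have h1 := Y23.norm_TT_le ha hf.1 (Complex.I * x)
      have e : (Complex.I * x).re = 0 := by simp
      rw [e, abs_zero, mul_zero, Real.exp_zero, mul_one] at h1
      refine h1.trans ?_
      calc 2 * a * N2 f ≤ 2 * a * (t / (2 * a)) := mul_le_mul_of_nonneg_left hN (by positivity)
        _ = t := by field_simp
    · refine (pt_le hδ hK hf x).trans (mul_le_mul_of_nonneg_right ?_ (ph_nonneg γ x))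
      exact div_le_div_of_nonneg_right hQ hδ.le
  have hP' := hPh.const_mul (M / δ)
  unfold Nw
  refine integral_mono (nw_int hPh hδ hK hf) ?_ hle
  refine hP'.mono' (aestronglyMeasurable_const.inf hP'.aestronglyMeasurable) (Eventually.of_forall fun x => ?_)
  rw [Real.norm_eq_abs, abs_of_nonneg (le_min ht.le (mul_nonneg (by positivity) (ph_nonneg γ x)))]
  exact min_le_right _ _

theorem core (ha : 0 < a) (hPh : Integrable (Ph γ) w) (hδ : 0 < δ)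
    (hK : ∀ f : ℝ → ℂ, Y23.G.F.Hn a ν f → ∀ x : ℝ, δ * ‖TT f (Complex.I * x)‖ ^ 2 ≤ Ph γ x * QQ f)
    {g0 : ℝ → ℂ} (hg0 : Y23.G.F.Hn a ν g0) (hg0N : 0 < Nw w g0) : ∃ f : ℝ → ℂ, Mw w a ν f := by
  set S : Set ℝ := {r : ℝ | ∃ f : ℝ → ℂ, Y23.G.F.Hn a ν f ∧ Nw w f = 1 ∧ QQ f = r} with hS
  have hbdd : BddBelow S := ⟨0, by rintro r ⟨f, hf, -, rfl⟩; exact qq_nonneg hδ hK hf⟩
  have hscale : ∀ f : ℝ → ℂ, Y23.G.F.Hn a ν f → 0 < Nw w f → QQ f / Nw w f ∈ S := by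
    intro f hf hN
    set c : ℂ := ((1 / Real.sqrt (Nw w f) : ℝ) : ℂ) with hc
    have hc2 : ‖c‖ ^ 2 = 1 / Nw w f := by
      rw [hc, Complex.norm_real, Real.norm_eq_abs, sq_abs, div_pow, Real.sq_sqrt hN.le, one_pow]
    refine ⟨_, hf.smul c, ?_, ?_⟩
    · rw [nw_smul, hc2]
      exact one_div_mul_cancel hN.ne'
    · rw [Y23.QQ_smul, hc2, one_div, inv_mul_eq_div]
  have hne : S.Nonempty := ⟨_, hscale g0 hg0 hg0N⟩
  set μ : ℝ := sInf S with hμ
  have hμ0 : 0 ≤ μ := le_csInf hne (by rintro r ⟨f, hf, -, rfl⟩; exact qq_nonneg hδ hK hf)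
  have hB : ∀ f : ℝ → ℂ, Y23.G.F.Hn a ν f → 0 ≤ Bm w μ f := by
    intro f hf
    unfold Bm
    rcases (nw_nonneg w f).eq_or_lt with h | h
    · rw [← h, mul_zero, sub_zero]
      exact qq_nonneg hδ hK hf
    · have h1 : μ ≤ QQ f / Nw w f := csInf_le hbdd (hscale f hf h)
      rw [le_div_iff₀ h] at h1
      linarith
  -- a minimising sequence
  have h1 : ∀ n : ℕ, ∃ f : ℝ → ℂ, Y23.G.F.Hn a ν f ∧ Nw w f = 1 ∧ QQ f < μ + 1 / ((n : ℝ) + 1) := by
    intro n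
    obtain ⟨r, ⟨f, hf, hN, rfl⟩, hr⟩ := exists_lt_of_csInf_lt hne (show μ < μ + 1 / ((n : ℝ) + 1) by
      have : (0 : ℝ) < 1 / ((n : ℝ) + 1) := by positivity
      linarith)
    exact ⟨f, hf, hN, hr⟩
  choose f hf hN hQ using h1
  have hQ1 : ∀ n, QQ (f n) ≤ μ + 1 := by
    intro n
    have h2 : 1 / ((n : ℝ) + 1) ≤ 1 := by
      rw [div_le_one (by positivity)]
      linarith [Nat.cast_nonneg (α := ℝ) n]
    linarith [hQ n]
  have hb : Tendsto (fun n => Bm w μ (f n)) atTop (𝓝 0) := by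
    refine squeeze_zero (fun n => hB _ (hf n)) (fun n => ?_) tendsto_one_div_add_atTop_nhds_zero_nat
    unfold Bm
    rw [hN n]
    linarith [hQ n]
  obtain ⟨C, hC, hco⟩ := Y23.coer ha
  obtain ⟨D, hD, hlow⟩ := low ha hδ hK
  obtain ⟨C', hC', hdom⟩ := Y23.dom_of_Hd ha
  have hpi := Real.pi_pos
  have hLb : ∀ n, LL (f n) ≤ 4 * Real.pi * (μ + 1) + C * (D * (μ + 1)) := by
    intro n
    have h2 := hco (f n) (hf n).hd
    have h3 := hlow (f n) (hf n)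
    have h4 : N2 (f n) ≤ D * (μ + 1) := h3.trans (mul_le_mul_of_nonneg_left (hQ1 n) hD.le)
    refine h2.trans (add_le_add (mul_le_mul_of_nonneg_left (hQ1 n) (by positivity)) (mul_le_mul_of_nonneg_left h4 hC.le))
  obtain ⟨φ, hφ, hcau⟩ := Y23.compact_seq ha (fun n => (hf n).hd) hLb
  have hbφ : Tendsto (fun n => Bm w μ (f (φ n))) atTop (𝓝 0) := hb.comp hφ.tendsto_atTop
  have hQd : ∀ m n, QQ (fun x => f (φ m) x - f (φ n) x) ≤ 4 * (μ + 1) := by
    intro m n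
    have h2 := qq_par ha (hf (φ m)) (hf (φ n))
    have h3 := qq_nonneg hδ hK ((hf (φ m)).add (hf (φ n)))
    linarith [hQ1 (φ m), hQ1 (φ n)]
  have hLc : ∀ ε : ℝ, 0 < ε → ∃ N : ℕ, ∀ m n : ℕ, N ≤ m → N ≤ n → LL (fun x => f (φ m) x - f (φ n) x) ≤ ε := by
    intro ε hε
    set K := 4 * Real.pi * (4 + μ) + C with hKd
    have hK0 : 0 < K := by positivity
    obtain ⟨t, ht, hsm⟩ := nw_small ha hPh hδ hK (M := 4 * (μ + 1)) (by positivity) (ε := ε / K) (by positivity)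
    obtain ⟨N1, hN1⟩ := hcau (min t (ε / K)) (lt_min ht (by positivity))
    obtain ⟨N2', hN2'⟩ := (Metric.tendsto_atTop.1 hbφ) (ε / K) (by positivity)
    refine ⟨max N1 N2', fun m n hm hn => ?_⟩
    have h3 := hN1 m n (le_of_max_le_left hm) (le_of_max_le_left hn)
    have h4 := hN2' m (le_of_max_le_right hm)
    have h5 := hN2' n (le_of_max_le_right hn)
    rw [Real.dist_eq, sub_zero] at h4 h5
    have h6 := (abs_lt.1 h4).2
    have h7 := (abs_lt.1 h5).2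
    have hmn := (hf (φ m)).sub (hf (φ n))
    have h8 := hco _ hmn.hd
    have h9 := bm_sub_le ha hPh hδ hK hB (hf (φ m)) (hf (φ n))
    have h10 := hsm _ hmn (hQd m n) (h3.trans (min_le_left _ _))
    have h11 : QQ (fun x => f (φ m) x - f (φ n) x) ≤ (4 + μ) * (ε / K) := by
      have e1 : QQ (fun x => f (φ m) x - f (φ n) x) = Bm w μ (fun x => f (φ m) x - f (φ n) x) +
          μ * Nw w (fun x => f (φ m) x - f (φ n) x) := by unfold Bm; ring
      rw [e1]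
      have h12 := mul_le_mul_of_nonneg_left h10 hμ0
      nlinarith
    calc LL (fun x => f (φ m) x - f (φ n) x) ≤ 4 * Real.pi * ((4 + μ) * (ε / K)) + C * (ε / K) := by
          refine h8.trans (add_le_add (mul_le_mul_of_nonneg_left h11 (by positivity))
            (mul_le_mul_of_nonneg_left (h3.trans (min_le_right _ _)) hC.le))
      _ = K * (ε / K) := by rw [hKd]; ring
      _ = ε := mul_div_cancel₀ _ hK0.ne'
  obtain ⟨g, hgd, hlim⟩ := Y23.complete_seq ha (fun n => (hf (φ n)).hd) hLc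
  have hg : Y23.G.F.Hn a ν g := Y23.G.F.Hn.lim ha (fun n => hf (φ n)) hgd hlim
  -- the form of the difference
  have hQl : ∀ n, QQ (fun x => f (φ n) x - g x) ≤ C' * LL (fun x => f (φ n) x - g x) := by
    intro n
    have h2 := hdom _ ((hf (φ n)).sub hg).hd
    exact (le_abs_self _).trans ((Y23.QQ_abs_le h2.1).trans h2.2)
  have hBg : Bm w μ g = 0 := by
    refine le_antisymm (le_of_forall_pos_le_add fun ε hε => ?_) (hB g hg)
    obtain ⟨N1, hN1⟩ := hlim (ε / (4 * C')) (by positivity)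
    obtain ⟨N2', hN2'⟩ := (Metric.tendsto_atTop.1 hbφ) (ε / 4) (by positivity)
    have h1 := hN1 (max N1 N2') (le_max_left _ _)
    have h2 := hN2' (max N1 N2') (le_max_right _ _)
    set n := max N1 N2'
    rw [Real.dist_eq, sub_zero] at h2
    have h3 := (abs_lt.1 h2).2
    have h4 := bm_sub_le ha hPh hδ hK hB (hf (φ n)) ((hf (φ n)).sub hg)
    have e : (fun x => f (φ n) x - (f (φ n) x - g x)) = g := by funext x; ring
    rw [e] at h4
    have h5 := hQl n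
    have h6 : C' * LL (fun x => f (φ n) x - g x) ≤ C' * (ε / (4 * C')) := mul_le_mul_of_nonneg_left h1 hC'.le
    have h7 : C' * (ε / (4 * C')) = ε / 4 := by field_simp
    have h8 : Bm w μ (fun x => f (φ n) x - g x) ≤ QQ (fun x => f (φ n) x - g x) := by
      unfold Bm
      have := mul_nonneg hμ0 (nw_nonneg w (fun x => f (φ n) x - g x))
      linarith
    linarith
  have hNg : 0 < Nw w g := by
    set IP : ℝ := ∫ x, Ph γ x ∂w with hIP
    have hIP0 : 0 ≤ IP := integral_nonneg fun x => ph_nonneg γ x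
    set E : ℝ := C' / δ * IP + 1 with hE
    have hE0 : 0 < E := by positivity
    obtain ⟨N1, hN1⟩ := hlim (1 / (4 * E)) (by positivity)
    have h1 := hN1 N1 le_rfl
    have h2 := nw_par hPh hδ hK hg ((hf (φ N1)).sub hg)
    have e : (fun x => g x + (f (φ N1) x - g x)) = f (φ N1) := by funext x; ring
    rw [e, hN] at h2
    have h3 := nw_le hPh hδ hK ((hf (φ N1)).sub hg)
    have h4 := nw_nonneg w (fun x => g x - (f (φ N1) x - g x))
    have h5 := hQl N1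
    have h6 : 0 ≤ LL (fun x => f (φ N1) x - g x) := Y23.LL_nonneg _
    have h7 : Nw w (fun x => f (φ N1) x - g x) ≤ E * LL (fun x => f (φ N1) x - g x) := by
      refine h3.trans ?_
      calc QQ (fun x => f (φ N1) x - g x) / δ * IP ≤ (C' * LL (fun x => f (φ N1) x - g x)) / δ * IP :=
            mul_le_mul_of_nonneg_right (div_le_div_of_nonneg_right h5 hδ.le) hIP0
        _ = C' / δ * IP * LL (fun x => f (φ N1) x - g x) := by ring
        _ ≤ E * LL (fun x => f (φ N1) x - g x) := mul_le_mul_of_nonneg_right (by rw [hE]; linarith) h6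
    have h8 : E * LL (fun x => f (φ N1) x - g x) ≤ E * (1 / (4 * E)) := mul_le_mul_of_nonneg_left h1 hE0.le
    have h9 : E * (1 / (4 * E)) = 1 / 4 := by field_simp
    linarith
  refine ⟨g, hg, hNg, fun g' hg' => ?_⟩
  have h1 : QQ g = μ * Nw w g := by
    unfold Bm at hBg
    linarith
  have h2 := hB g' hg'
  unfold Bm at h2
  rw [h1]
  have h3 := mul_le_mul_of_nonneg_right (sub_nonneg.1 h2) hNg.le
  linarith

end core

/-- **UnivE**: minimisers exist for every local norm -/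
theorem univE (hKR : S_KR) (hXtE : S_XtE) (hXtP : S_XtP) : S_UnivE := by
  intro hRH γ hγ w hw a ν ha hg
  obtain ⟨g0, hg0, hg0N⟩ := hg
  obtain ⟨F0, hF0⟩ := hXtE hRH a ν ha
  have hδ : 0 < QQ F0 := (hXtP hRH a ν F0 ha hF0).1
  exact core ha (ph_int hγ.pos hw) hδ
    (fun f hf x => hKR hRH γ hγ a ν (QQ F0) ha (fun g hg h1 => hF0.2.2 g hg h1) f hf x) hg0 hg0N

end Pool.Agent.Q223.EX
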